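import Pool.Agent.H19.TM.Stm2

/-!
# Project TM2, module FAIL
-/

set_option autoImplicit false

namespace Pool.Agent.H54.TM

open Finset MeasureTheory ProbabilityTheory

/-- the thresholds -/
noncomputable def tt (n i : ℕ) : ℝ := ((i : ℝ) + 1) / n

/-- the jumps -/
noncomputable def cc (n i : ℕ) : ℝ := (((i : ℝ) + 1) / n) ^ 2 - ((i : ℝ) / n) ^ 2

/-- indicator -/
noncomputable def ind (t u : ℝ) : ℝ := (if u ≤ -t then 1 else 0) + (1 - if u ≤ t then 1 else 0)

/-- step function below the square -/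
noncomputable def ff (n : ℕ) (u : ℝ) : ℝ := ∑ i ∈ range (n ^ 2), cc n i * ind (tt n i) u

theorem tt_nonneg (n i : ℕ) : 0 ≤ tt n i := by
  unfold tt; positivity

theorem cc_nonneg (n i : ℕ) : 0 ≤ cc n i := by
  unfold cc
  rw [sub_nonneg]
  apply pow_le_pow_left₀ (by positivity)
  gcongr
  linarith

theorem sum_cc (n m : ℕ) : ∑ i ∈ range m, cc n i = ((m : ℝ) / n) ^ 2 := by
  induction m with
  | zero => simp
  | succ m ih =>
    rw [sum_range_succ, ih]
    unfold cc
    push_cast
    ring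

theorem ind_nonneg {t : ℝ} (ht : 0 ≤ t) (u : ℝ) : 0 ≤ ind t u := by
  unfold ind
  by_cases h1 : u ≤ -t
  · rw [if_pos h1, if_pos (by linarith)]; norm_num
  · rw [if_neg h1]
    split_ifs <;> norm_num

theorem ind_le {t : ℝ} (ht : 0 ≤ t) (u : ℝ) : ind t u ≤ 1 := by
  unfold ind
  by_cases h1 : u ≤ -t
  · rw [if_pos h1, if_pos (by linarith)]; norm_num
  · rw [if_neg h1]
    split_ifs <;> norm_num

theorem ind_zero {t u : ℝ} (h : |u| < t) : ind t u = 0 := by
  unfold ind
  obtain ⟨h1, h2⟩ := abs_lt.1 h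
  rw [if_neg (by linarith), if_pos (by linarith)]
  norm_num

theorem ind_one {t u : ℝ} (ht : 0 ≤ t) (h : t < |u|) : ind t u = 1 := by
  unfold ind
  rcases le_or_gt 0 u with hu | hu
  · rw [abs_of_nonneg hu] at h
    rw [if_neg (by linarith), if_neg (by linarith)]
    norm_num
  · rw [abs_of_neg hu] at h
    rw [if_pos (by linarith), if_pos (by linarith)]
    norm_num

theorem ff_le (n : ℕ) (u : ℝ) : ff n u ≤ u ^ 2 := by
  have key : ∀ m : ℕ, ∑ i ∈ range m, cc n i * ind (tt n i) u ≤ u ^ 2 := by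
    intro m
    induction m with
    | zero => simp; positivity
    | succ m ih =>
      rcases lt_or_ge |u| (tt n m) with h | h
      · rw [sum_range_succ, ind_zero h, mul_zero, add_zero]
        exact ih
      · have h1 : ∑ i ∈ range (m + 1), cc n i * ind (tt n i) u ≤ ∑ i ∈ range (m + 1), cc n i := by
          apply sum_le_sum
          intro i _
          exact mul_le_of_le_one_right (cc_nonneg n i) (ind_le (tt_nonneg n i) u)
        rw [sum_cc] at h1
        refine h1.trans ?_
        rw [← sq_abs u]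
        apply pow_le_pow_left₀ (by positivity)
        unfold tt at h
        push_cast
        exact h
  exact key _

theorem ff_nonneg (n : ℕ) (u : ℝ) : 0 ≤ ff n u :=
  sum_nonneg fun i _ => mul_nonneg (cc_nonneg n i) (ind_nonneg (tt_nonneg n i) u)

theorem ff_ge {n : ℕ} (hn : 1 ≤ n) {u : ℝ} (hu : |u| ≤ n) : u ^ 2 - 2 * |u| / n ≤ ff n u := by
  have hn' : (0 : ℝ) < n := by exact_mod_cast hn
  rcases lt_or_ge ((n : ℝ) * |u|) 1 with h | h
  · have h1 : |u| < 1 / n := by rw [lt_div_iff₀ hn']; linarith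
    have h2 : u ^ 2 - 2 * |u| / n ≤ 0 := by
      rw [← sq_abs u]
      have : |u| ^ 2 - 2 * |u| / n = |u| * (|u| - 2 * (1 / n)) := by ring
      rw [this]
      apply mul_nonpos_of_nonneg_of_nonpos (abs_nonneg u)
      have : (0 : ℝ) < 1 / n := by positivity
      linarith
    exact h2.trans (ff_nonneg n u)
  · obtain ⟨m, hm⟩ : ∃ m : ℕ, m = ⌈(n : ℝ) * |u|⌉₊ - 1 := ⟨_, rfl⟩
    have hc : 1 ≤ ⌈(n : ℝ) * |u|⌉₊ := by
      rw [Nat.one_le_ceil_iff]
      linarith
    have hm1 : (m : ℝ) + 1 = ⌈(n : ℝ) * |u|⌉₊ := by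
      rw [hm]; push_cast [Nat.cast_sub hc]; ring
    have hm2 : (m : ℝ) < n * |u| := by
      have : (⌈(n : ℝ) * |u|⌉₊ : ℝ) < n * |u| + 1 := Nat.ceil_lt_add_one (by positivity)
      linarith
    have hm3 : (n : ℝ) * |u| - 1 ≤ m := by
      have := Nat.le_ceil ((n : ℝ) * |u|)
      linarith
    have hm4 : m ≤ n ^ 2 := by
      have : (m : ℝ) ≤ (n : ℝ) ^ 2 := by
        have h5 : (n : ℝ) * |u| ≤ n * n := mul_le_mul_of_nonneg_left hu hn'.le
        nlinarith
      exact_mod_cast this
    have h1 : ∑ i ∈ range m, cc n i * ind (tt n i) u ≤ ff n u := by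
      apply sum_le_sum_of_subset_of_nonneg (range_subset_range.2 hm4)
      intro i _ _
      exact mul_nonneg (cc_nonneg n i) (ind_nonneg (tt_nonneg n i) u)
    refine le_trans ?_ h1
    have h2 : ∑ i ∈ range m, cc n i * ind (tt n i) u = ∑ i ∈ range m, cc n i := by
      apply sum_congr rfl
      intro i hi
      rw [mem_range] at hi
      rw [ind_one (tt_nonneg n i), mul_one]
      unfold tt
      rw [div_lt_iff₀ hn']
      have : ((i : ℝ) + 1) ≤ m := by exact_mod_cast hi
      linarith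
    rw [h2, sum_cc]
    have h3 : |u| - 1 / n ≤ (m : ℝ) / n := by
      rw [le_div_iff₀ hn', sub_mul, one_div, inv_mul_cancel₀ hn'.ne']
      linarith
    have h4 : 0 ≤ |u| - 1 / n := by
      rw [sub_nonneg, div_le_iff₀ hn']
      linarith
    have h5 : (|u| - 1 / n) ^ 2 ≤ ((m : ℝ) / n) ^ 2 := pow_le_pow_left₀ h4 h3 2
    refine le_trans ?_ h5
    rw [← sq_abs u]
    have : (|u| - 1 / (n : ℝ)) ^ 2 = |u| ^ 2 - 2 * |u| / n + (1 / (n : ℝ)) ^ 2 := by ring
    rw [this]
    have : 0 ≤ (1 / (n : ℝ)) ^ 2 := by positivity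
    linarith

theorem ff_tendsto (u : ℝ) : Filter.Tendsto (fun n => ff n u) Filter.atTop (nhds (u ^ 2)) := by
  have h1 : Filter.Tendsto (fun n : ℕ => u ^ 2 - 2 * |u| / n) Filter.atTop (nhds (u ^ 2)) := by
    have := (tendsto_const_div_atTop_nhds_zero_nat (2 * |u|)).const_sub (u ^ 2)
    simpa using this
  refine tendsto_of_tendsto_of_tendsto_of_le_of_le' h1 tendsto_const_nhds ?_
    (Filter.Eventually.of_forall fun n => ff_le n u)
  filter_upwards [Filter.eventually_ge_atTop (max 1 ⌈|u|⌉₊)] with n hn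
  apply ff_ge ((le_max_left _ _).trans hn)
  exact (Nat.le_ceil _).trans (by exact_mod_cast (le_max_right _ _).trans hn)

theorem ind_measurable (t : ℝ) : Measurable (ind t) := by
  unfold ind
  apply Measurable.add
  · exact Measurable.ite measurableSet_Iic measurable_const measurable_const
  · apply Measurable.sub measurable_const
    exact Measurable.ite measurableSet_Iic measurable_const measurable_const

theorem ff_measurable (n : ℕ) : Measurable (ff n) := by
  unfold ff
  apply Finset.measurable_sum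
  intro i _
  exact (ind_measurable _).const_mul _

theorem integral_ind {t : ℝ} (μ : Measure ℝ) [IsProbabilityMeasure μ] :
    ∫ u, ind t u ∂μ = μ.real (Set.Iic (-t)) + (1 - μ.real (Set.Iic t)) := by
  have h1 : ∀ s : ℝ, (fun u : ℝ => if u ≤ s then (1 : ℝ) else 0) =
      Set.indicator (Set.Iic s) (fun _ => (1 : ℝ)) := by
    intro s
    ext u
    by_cases h : u ≤ s
    · rw [if_pos h, Set.indicator_of_mem (Set.mem_Iic.2 h)]
    · rw [if_neg h, Set.indicator_of_notMem (fun h' => h (Set.mem_Iic.1 h'))]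
  have h2 : ∀ s : ℝ, Integrable (fun u : ℝ => if u ≤ s then (1 : ℝ) else 0) μ := by
    intro s
    rw [h1]
    exact (integrable_const _).indicator measurableSet_Iic
  have h3 : ∀ s : ℝ, ∫ u, (if u ≤ s then (1 : ℝ) else 0) ∂μ = μ.real (Set.Iic s) := by
    intro s
    rw [h1, integral_indicator measurableSet_Iic]
    simp
  have h4 : ∀ u : ℝ, ind t u = (if u ≤ -t then (1 : ℝ) else 0) +
      ((fun _ => (1 : ℝ)) u - if u ≤ t then (1 : ℝ) else 0) := fun u => rfl
  have h5 : Integrable (fun u : ℝ => (fun _ => (1 : ℝ)) u - if u ≤ t then (1 : ℝ) else 0) μ :=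
    (integrable_const _).sub (h2 _)
  simp_rw [h4]
  rw [integral_add (h2 _) h5, integral_sub (integrable_const _) (h2 _), h3, h3]
  simp

theorem ind_integrable (t : ℝ) (ht : 0 ≤ t) (μ : Measure ℝ) [IsProbabilityMeasure μ] :
    Integrable (ind t) μ := by
  apply Integrable.of_bound (ind_measurable t).aestronglyMeasurable 1
  refine Filter.Eventually.of_forall fun u => ?_
  rw [Real.norm_eq_abs, abs_of_nonneg (ind_nonneg ht u)]
  exact ind_le ht u

theorem integral_ff (n : ℕ) (μ : Measure ℝ) [IsProbabilityMeasure μ] :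
    ∫ u, ff n u ∂μ = ∑ i ∈ range (n ^ 2), cc n i *
      (μ.real (Set.Iic (-tt n i)) + (1 - μ.real (Set.Iic (tt n i)))) := by
  unfold ff
  rw [integral_finsetSum]
  · apply sum_congr rfl
    intro i _
    rw [integral_const_mul, integral_ind]
  · intro i _
    exact (ind_integrable _ (tt_nonneg n i) μ).const_mul _

theorem second_moment : ∫ u, u ^ 2 ∂(gaussianReal 0 1) = 1 := by
  have h := variance_id_gaussianReal (μ := 0) (v := 1)
  rw [variance_eq_integral measurable_id.aemeasurable] at h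
  simpa using h

theorem sq_integrable : Integrable (fun u : ℝ => u ^ 2) (gaussianReal 0 1) :=
  (memLp_id_gaussianReal (μ := 0) (v := 1) 2).integrable_sq

theorem exists_n {η : ℝ} (hη : 0 < η) :
    ∃ n : ℕ, 1 ≤ n ∧ 1 - η < ∫ u, ff n u ∂(gaussianReal 0 1) := by
  have h : Filter.Tendsto (fun n => ∫ u, ff n u ∂(gaussianReal 0 1)) Filter.atTop
      (nhds (∫ u, u ^ 2 ∂(gaussianReal 0 1))) := by
    apply tendsto_integral_of_dominated_convergence (fun u => u ^ 2)
    · intro n
      exact (ff_measurable n).aestronglyMeasurable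
    · exact sq_integrable
    · intro n
      refine Filter.Eventually.of_forall fun u => ?_
      rw [Real.norm_eq_abs, abs_of_nonneg (ff_nonneg n u)]
      exact ff_le n u
    · exact Filter.Eventually.of_forall fun u => ff_tendsto u
  rw [second_moment] at h
  have h1 := (h.eventually (lt_mem_nhds (show 1 - η < 1 by linarith))).and
    (Filter.eventually_ge_atTop 1)
  obtain ⟨n, hn1, hn2⟩ := h1.exists
  exact ⟨n, hn2, hn1⟩

open Pool.Agent.H19.TM in
theorem t_FAIL : S_FAIL := by
  intro η hη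
  obtain ⟨n, hn, hI⟩ := exists_n (η := η / 2) (by linarith)
  rw [integral_ff] at hI
  obtain ⟨T, hT⟩ : ∃ T : ℝ, T = ∑ i ∈ range (n ^ 2), cc n i := ⟨_, rfl⟩
  have hT0 : 0 ≤ T := by rw [hT]; exact sum_nonneg fun i _ => cc_nonneg n i
  obtain ⟨Φ, hΦ⟩ : ∃ Φ : ℝ → ℝ, Φ = fun t => (gaussianReal 0 1).real (Set.Iic t) := ⟨_, rfl⟩
  refine ⟨(range (n ^ 2)).image (fun i => tt n i) ∪ (range (n ^ 2)).image (fun i => -tt n i),
    η / (4 * (T + 1)), by positivity, ?_⟩
  intro Om hOm S hS
  by_contra hcon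
  push Not at hcon
  obtain ⟨F, hF⟩ : ∃ F : ℝ → ℝ, F = fun t => ((Om.filter (fun x => S x ≤ t)).card : ℝ) / Om.card :=
    ⟨_, rfl⟩
  have hc : (0 : ℝ) < Om.card := by exact_mod_cast hOm.card_pos
  have hFi : ∀ t, F t = (∑ x ∈ Om, if S x ≤ t then (1 : ℝ) else 0) / Om.card := by
    intro t
    rw [hF]
    simp only
    rw [Finset.sum_boole]
  have h1 : (∑ x ∈ Om, ff n (S x)) / Om.card =
      ∑ i ∈ range (n ^ 2), cc n i * (F (-tt n i) + (1 - F (tt n i))) := by
    unfold ff
    rw [sum_comm, sum_div]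
    apply sum_congr rfl
    intro i _
    rw [← mul_sum, mul_div_assoc, hFi, hFi]
    congr 1
    unfold ind
    rw [sum_add_distrib, sum_sub_distrib, add_div, sub_div]
    simp [hc.ne']
  have h2 : (∑ x ∈ Om, ff n (S x)) / Om.card ≤ 1 - η := by
    refine le_trans ?_ hS
    apply div_le_div_of_nonneg_right _ hc.le
    exact sum_le_sum fun x _ => ff_le n (S x)
  have h3 : ∑ i ∈ range (n ^ 2), cc n i * (Φ (-tt n i) + (1 - Φ (tt n i))) -
      ∑ i ∈ range (n ^ 2), cc n i * (F (-tt n i) + (1 - F (tt n i))) ≤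
      2 * (η / (4 * (T + 1))) * T := by
    rw [← sum_sub_distrib, hT, mul_sum]
    apply sum_le_sum
    intro i hi
    have a1 := hcon (tt n i) (mem_union_left _ (mem_image_of_mem _ hi))
    have a2 := hcon (-tt n i) (mem_union_right _ (mem_image.2 ⟨i, hi, rfl⟩))
    have b1 : |F (tt n i) - Φ (tt n i)| < η / (4 * (T + 1)) := by
      rw [hF, hΦ]; exact a1
    have b2 : |F (-tt n i) - Φ (-tt n i)| < η / (4 * (T + 1)) := by
      rw [hF, hΦ]; exact a2
    obtain ⟨b3, b4⟩ := abs_lt.1 b1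
    obtain ⟨b5, b6⟩ := abs_lt.1 b2
    rw [← hT]
    have : cc n i * (Φ (-tt n i) + (1 - Φ (tt n i))) - cc n i * (F (-tt n i) + (1 - F (tt n i))) =
        cc n i * ((Φ (-tt n i) - F (-tt n i)) + (F (tt n i) - Φ (tt n i))) := by ring
    rw [this, mul_comm]
    apply mul_le_mul_of_nonneg_right _ (cc_nonneg n i)
    linarith
  have h4 : 2 * (η / (4 * (T + 1))) * T ≤ η / 2 := by
    have : 2 * (η / (4 * (T + 1))) * T = η / 2 * (T / (T + 1)) := by
      field_simp
      ring
    rw [this]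
    apply mul_le_of_le_one_right (by linarith)
    rw [div_le_one (by linarith)]
    linarith
  have h5 : 1 - η / 2 < ∑ i ∈ range (n ^ 2), cc n i * (Φ (-tt n i) + (1 - Φ (tt n i))) := by
    rw [hΦ]; exact hI
  rw [h1] at h2
  linarith

end Pool.Agent.H54.TM
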