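import Pool.Agent.H19.TM.VarFar

/-!
# Project TM2, module SMALL
-/

set_option autoImplicit false

namespace Pool.Agent.H54.TM

open Finset Pool.Agent.Y862.GM Pool.Agent.H19.TM

/-- the square root of `V` -/
noncomputable def R (P : Finset ℕ) : ℝ := ∏ p ∈ P, (1 - 1 / (p : ℝ))

theorem V_eq (P : Finset ℕ) : V P = R P ^ 2 := by
  unfold V R
  rw [prod_pow]

theorem R_pos (P : Finset ℕ) (hP : ∀ p ∈ P, p.Prime) : 0 < R P := by
  apply prod_pos
  intro p hp
  have h2 : (1 : ℝ) < p := by exact_mod_cast (hP p hp).one_lt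
  rw [sub_pos, div_lt_one (by linarith)]
  exact h2

theorem R_le_one (P : Finset ℕ) (hP : ∀ p ∈ P, p.Prime) : R P ≤ 1 := by
  apply prod_le_one
  · intro p hp
    have h2 : (1 : ℝ) < p := by exact_mod_cast (hP p hp).one_lt
    rw [sub_nonneg, div_le_one (by linarith)]
    exact h2.le
  · intro p hp
    have : (0 : ℝ) ≤ 1 / p := by positivity
    linarith

theorem R_insert {P : Finset ℕ} {p : ℕ} (hp : p ∉ P) :
    R (insert p P) = (1 - 1 / (p : ℝ)) * R P := by
  unfold R
  rw [prod_insert hp]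

theorem pr_succ_prime {z : ℕ} (hz : (z + 1).Prime) : pr (z + 1) = insert (z + 1) (pr z) := by
  unfold pr
  rw [range_add_one, filter_insert, if_pos hz]

theorem pr_succ_not {z : ℕ} (hz : ¬ (z + 1).Prime) : pr (z + 1) = pr z := by
  unfold pr
  rw [range_add_one, filter_insert, if_neg hz]

theorem not_mem_pr (z : ℕ) : z + 1 ∉ pr z := by
  unfold pr
  rw [mem_filter, mem_range]
  omega

theorem div_ge {m N : ℕ} (hm : 1 ≤ m) (hN : 2 * m ≤ N) : (N : ℝ) / (2 * m) ≤ ((N / m : ℕ) : ℝ) := by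
  have hm' : (0 : ℝ) < m := by exact_mod_cast hm
  have h1 : N < (N / m + 1) * m := by
    have := Nat.lt_div_mul_add (a := N) (b := m) (by omega)
    rw [add_mul, one_mul]
    exact this
  have h1' : (N : ℝ) < ((N / m : ℕ) + 1) * m := by exact_mod_cast h1
  have h2 : (2 : ℝ) * m ≤ N := by exact_mod_cast hN
  rw [div_le_iff₀ (by positivity)]
  nlinarith

/-- the contribution of the classes modulo `m` -/
theorem sumlog (hC : S_CNT) (P : Finset ℕ) (r K κ : ℝ) (hκ : 0 ≤ κ)
    (m N : ℕ) (hm : 1 ≤ m) (hN : 2 * m ≤ N)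
    (hlog : Real.log (2 * m) ≤ (1 - κ) * (1 + Real.log N)) (hr : 0 ≤ r)
    (ih : ∀ M : ℕ, 1 ≤ M → Wv P M * r * (1 + Real.log M) ≤ K * M) :
    κ * ((∑ a ∈ range m, Wv P (cnt m a N)) * r * (1 + Real.log N)) ≤ K * N := by
  obtain ⟨hsum, hcnt, -⟩ := hC m N hm
  have hm' : (0 : ℝ) < m := by exact_mod_cast hm
  have hN' : (0 : ℝ) < N := by
    have : 0 < N := by omega
    exact_mod_cast this
  have h1 : ∀ a ∈ range m, κ * (Wv P (cnt m a N) * r * (1 + Real.log N)) ≤ K * (cnt m a N : ℝ) := by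
    intro a ha
    have hc := (hcnt a (mem_range.1 ha)).1
    have h1 : 1 ≤ N / m := by
      rw [Nat.one_le_div_iff (by omega)]
      omega
    have hc1 : 1 ≤ cnt m a N := h1.trans hc
    refine le_trans ?_ (ih _ hc1)
    have h2 : (N : ℝ) / (2 * m) ≤ cnt m a N := (div_ge hm hN).trans (by exact_mod_cast hc)
    have h3 : Real.log N - Real.log (2 * m) ≤ Real.log (cnt m a N) := by
      rw [← Real.log_div hN'.ne' (by positivity)]
      exact Real.log_le_log (by positivity) h2
    have h4 : κ * (1 + Real.log N) ≤ 1 + Real.log (cnt m a N) := by linarith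
    have h5 : 0 ≤ Wv P (cnt m a N) * r := mul_nonneg (Wv_nonneg _ _) hr
    calc κ * (Wv P (cnt m a N) * r * (1 + Real.log N)) =
          Wv P (cnt m a N) * r * (κ * (1 + Real.log N)) := by ring
      _ ≤ _ := mul_le_mul_of_nonneg_left h4 h5
  have h2 := sum_le_sum h1
  have h3 : ∑ a ∈ range m, K * (cnt m a N : ℝ) = K * N := by
    rw [← mul_sum]
    congr 1
    exact_mod_cast hsum
  rw [h3] at h2
  refine le_trans (le_of_eq ?_) h2
  rw [← mul_sum, ← sum_mul, ← sum_mul]

theorem num_ineq (x : ℝ) (hx0 : 0 < x) (hx1 : x ≤ 1 / 2) :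
    max (1 - 4 * x + 2 * x ^ 2) 0 + (4 * x - 4 * x ^ 2) * (9 / 8) + x ^ 2 * (6 / 5) ≤
      (1 + 3 * x ^ 2) * (1 + x / 2) := by
  rcases le_total 0 (1 - 4 * x + 2 * x ^ 2) with h | h
  · rw [max_eq_left h]
    nlinarith [pow_pos hx0 3, pow_pos hx0 2]
  · rw [max_eq_right h]
    nlinarith [pow_pos hx0 3, pow_pos hx0 2, sq_nonneg (3 * x - 1)]

theorem log_le_sqrt {N : ℝ} (hN : 0 < N) : 1 + Real.log N ≤ 2 * √N := by
  have h := Real.log_le_sub_one_of_pos (Real.sqrt_pos.2 hN)
  rw [Real.log_sqrt hN.le] at h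
  linarith

theorem aux (hR : S_REC) (hC : S_CNT) (C₀ : ℝ)
    (hV : ∀ P : Finset ℕ, (∀ p ∈ P, p.Prime) → ∀ N : ℕ, 0 ≤ Wv P N ∧ Wv P N ≤ C₀ * N)
    (K : ℝ) (hK1 : 1 ≤ K)
    (hK : ∀ p : ℕ, p.Prime → C₀ * (R (pr p) * (1 + 18 * Real.log p)) ≤ K) (hC₀ : 0 ≤ C₀) :
    ∀ z N : ℕ, 1 ≤ N → Wv (pr z) N * R (pr z) * (1 + Real.log N) ≤
      K * (∏ p ∈ pr z, (1 + 3 / (p : ℝ) ^ 2)) * N := by
  have hprod : ∀ z, 1 ≤ ∏ p ∈ pr z, (1 + 3 / (p : ℝ) ^ 2) := by
    intro z
    apply Finset.prod_induction _ (fun z : ℝ => 1 ≤ z)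
    · intro a b ha hb
      nlinarith
    · exact le_rfl
    · intro q _
      have : (0 : ℝ) ≤ 3 / (q : ℝ) ^ 2 := by positivity
      linarith
  intro z
  induction z with
  | zero =>
    intro N hN
    have h0 : pr 0 = ∅ := by
      unfold pr
      decide
    rw [h0]
    have h1 : Wv ∅ N = 0 := by
      unfold Wv V
      simp
    rw [h1]
    simp only [zero_mul]
    positivity
  | succ z ih =>
    intro N hN
    have hN' : (1 : ℝ) ≤ N := by exact_mod_cast hN
    have hL : 0 ≤ Real.log N := Real.log_nonneg hN'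
    by_cases hp : (z + 1).Prime
    swap
    · rw [pr_succ_not hp]
      exact ih N hN
    obtain ⟨p, hpz⟩ : ∃ p, p = z + 1 := ⟨_, rfl⟩
    have hprp : ∀ q ∈ pr (z + 1), q.Prime := pr_prime _
    rcases le_or_gt N ((z + 1) ^ 18) with hNp | hNp
    · -- short windows
      have h1 := (hV _ hprp N).2
      have hR0 := (R_pos _ hprp).le
      have hlog : Real.log N ≤ 18 * Real.log ((z + 1 : ℕ) : ℝ) := by
        rw [← Real.log_rpow (by positivity)]
        apply Real.log_le_log (by linarith)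
        have : (N : ℝ) ≤ ((z + 1 : ℕ) : ℝ) ^ (18 : ℕ) := by exact_mod_cast hNp
        rw [show ((18 : ℝ)) = ((18 : ℕ) : ℝ) by norm_num, Real.rpow_natCast]
        exact this
      have h2 := hK (z + 1) hp
      calc Wv (pr (z + 1)) N * R (pr (z + 1)) * (1 + Real.log N) ≤
            (C₀ * N) * R (pr (z + 1)) * (1 + 18 * Real.log ((z + 1 : ℕ) : ℝ)) := by
            apply mul_le_mul
            · exact mul_le_mul_of_nonneg_right h1 hR0
            · linarith
            · linarith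
            · positivity
        _ = (C₀ * (R (pr (z + 1)) * (1 + 18 * Real.log ((z + 1 : ℕ) : ℝ)))) * N := by ring
        _ ≤ K * N := mul_le_mul_of_nonneg_right h2 (by positivity)
        _ ≤ K * (∏ p ∈ pr (z + 1), (1 + 3 / (p : ℝ) ^ 2)) * N := by
            apply mul_le_mul_of_nonneg_right _ (by positivity)
            exact le_mul_of_one_le_right (by linarith) (hprod _)
    · -- long windows
      have hP := pr_prime z
      have hnot := not_mem_pr z
      have hrec := hR (pr z) hP (z + 1) hp hnot N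
      rw [pr_succ_prime hp, R_insert hnot, prod_insert hnot, hrec]
      have hV0 := (V_pos _ hP).le
      have hV1 := V_le_one _ hP
      have hRp := R_pos _ hP
      have hR1 := R_le_one _ hP
      rw [← hpz] at hp hNp ⊢
      have hp2 : 2 ≤ p := hp.two_le
      have hp2' : (2 : ℝ) ≤ p := by exact_mod_cast hp2
      have hp0 : (0 : ℝ) < p := by linarith
      obtain ⟨E, hE⟩ : ∃ E : ℝ, E = ∏ p ∈ pr z, (1 + 3 / (p : ℝ) ^ 2) := ⟨_, rfl⟩
      have hE1 : 1 ≤ E := by rw [hE]; exact hprod z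
      obtain ⟨r, hr⟩ : ∃ r : ℝ, r = R (pr z) := ⟨_, rfl⟩
      obtain ⟨L, hLdef⟩ : ∃ L : ℝ, L = 1 + Real.log N := ⟨_, rfl⟩
      have hL1 : 1 ≤ L := by rw [hLdef]; linarith
      rw [← hE, ← hr, ← hLdef]
      rw [← hr] at hRp hR1
      have ih' : ∀ M : ℕ, 1 ≤ M → Wv (pr z) M * r * (1 + Real.log M) ≤ (K * E) * M := by
        intro M hM
        rw [hr, hE]
        exact ih M hM
      -- sizes
      have hlogp : Real.log 2 ≤ Real.log p := Real.log_le_log (by norm_num) hp2'
      have hlog2 : Real.log 2 < 0.6931471808 := Real.log_two_lt_d9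
      have hlog2' : 0.6931471803 < Real.log 2 := Real.log_two_gt_d9
      have hNr : (p : ℝ) ^ 18 < N := by exact_mod_cast hNp
      have hlogN : 18 * Real.log p ≤ Real.log N := by
        have := Real.log_le_log (by positivity) hNr.le
        rw [Real.log_pow] at this
        exact_mod_cast this
      have hpow : ∀ k : ℕ, 1 ≤ k → k + 1 ≤ 18 → 2 * p ^ k ≤ N := by
        intro k hk1 hk2
        calc 2 * p ^ k ≤ p * p ^ k := Nat.mul_le_mul_right _ hp2
          _ = p ^ (k + 1) := by ring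
          _ ≤ p ^ 18 := Nat.pow_le_pow_right (by omega) hk2
          _ ≤ N := hNp.le
      have s1 := sumlog hC (pr z) r (K * E) (8 / 9) (by norm_num) p N (by omega)
        (by simpa using hpow 1 (by norm_num) (by norm_num))
        (by
          rw [Real.log_mul (by norm_num) hp0.ne']
          linarith) hRp.le ih'
      have s2 := sumlog hC (pr z) r (K * E) (5 / 6) (by norm_num) (p ^ 2) N (Nat.one_le_pow _ _ (by omega))
        (hpow 2 (by norm_num) (by norm_num))
        (by
          push_cast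
          rw [Real.log_mul (by norm_num) (by positivity), Real.log_pow]
          push_cast
          linarith) hRp.le ih'
      have s0 := ih' N hN
      rw [← hLdef] at s0 s1 s2
      have t1 := (hC p N (by omega)).2.2.2.1
      have t2 := (hC (p ^ 2) N (Nat.one_le_pow _ _ (by omega))).2.2.2.1
      have t10 := (hC p N (by omega)).2.2.1
      have t20 := (hC (p ^ 2) N (Nat.one_le_pow _ _ (by omega))).2.2.1
      push_cast at t2
      obtain ⟨S0, hS0⟩ : ∃ S : ℝ, S = Wv (pr z) N := ⟨_, rfl⟩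
      obtain ⟨S1, hS1⟩ : ∃ S : ℝ, S = ∑ a ∈ range p, Wv (pr z) (cnt p a N) := ⟨_, rfl⟩
      obtain ⟨S2, hS2⟩ : ∃ S : ℝ, S = ∑ a ∈ range (p ^ 2), Wv (pr z) (cnt (p ^ 2) a N) := ⟨_, rfl⟩
      have hS0n : 0 ≤ S0 := by rw [hS0]; exact Wv_nonneg _ _
      have hS1n : 0 ≤ S1 := by rw [hS1]; exact sum_nonneg fun _ _ => Wv_nonneg _ _
      have hS2n : 0 ≤ S2 := by rw [hS2]; exact sum_nonneg fun _ _ => Wv_nonneg _ _
      rw [← hS0, ← hS1, ← hS2]
      rw [← hS0] at s0
      rw [← hS1] at s1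
      rw [← hS2] at s2
      obtain ⟨x, hx⟩ : ∃ x : ℝ, x = 1 / (p : ℝ) := ⟨_, rfl⟩
      have hx0 : 0 < x := by rw [hx]; positivity
      have hx1 : x ≤ 1 / 2 := by
        rw [hx]
        exact one_div_le_one_div_of_le (by norm_num) hp2'
      have hxp : x * p = 1 := by rw [hx]; field_simp
      have e1 : 4 / (p : ℝ) = 4 * x := by rw [hx]; ring
      have e2 : 2 / (p : ℝ) ^ 2 = 2 * x ^ 2 := by rw [hx]; ring
      have e3 : 4 / (p : ℝ) ^ 2 = 4 * x ^ 2 := by rw [hx]; ring
      have e4 : 1 / (p : ℝ) ^ 2 = x ^ 2 := by rw [hx]; ring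
      have e5 : 3 / (p : ℝ) ^ 2 = 3 * x ^ 2 := by rw [hx]; ring
      have e6 : ∀ t : ℝ, t / (p : ℝ) ^ 2 = x ^ 2 * t := by intro t; rw [hx]; ring
      rw [e6 (th (p ^ 2) N), e1, e2, e3, e4, e5, ← hx]
      obtain ⟨B, hB⟩ : ∃ B : ℝ, B = K * E * N := ⟨_, rfl⟩
      have hBN : (N : ℝ) ≤ B := by
        rw [hB]
        apply le_mul_of_one_le_left (by linarith)
        nlinarith
      rw [← hB] at s0 s1 s2
      have hrL : 0 ≤ r * L := by positivity
      -- the four terms
      have hcoef : 0 ≤ 4 * x - 4 * x ^ 2 := by nlinarith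
      have a0 : (1 - 4 * x + 2 * x ^ 2) * S0 * (r * L) ≤ max (1 - 4 * x + 2 * x ^ 2) 0 * B := by
        calc (1 - 4 * x + 2 * x ^ 2) * S0 * (r * L) = (1 - 4 * x + 2 * x ^ 2) * (S0 * r * L) := by ring
          _ ≤ max (1 - 4 * x + 2 * x ^ 2) 0 * (S0 * r * L) :=
              mul_le_mul_of_nonneg_right (le_max_left _ _) (by positivity)
          _ ≤ _ := mul_le_mul_of_nonneg_left s0 (le_max_right _ _)
      have a1 : (4 * x - 4 * x ^ 2) * S1 * (r * L) ≤ (4 * x - 4 * x ^ 2) * (9 / 8) * B := by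
        calc (4 * x - 4 * x ^ 2) * S1 * (r * L) = (4 * x - 4 * x ^ 2) * (9 / 8) * (8 / 9 * (S1 * r * L)) := by ring
          _ ≤ _ := mul_le_mul_of_nonneg_left s1 (by positivity)
      have a2 : x ^ 2 * S2 * (r * L) ≤ x ^ 2 * (6 / 5) * B := by
        calc x ^ 2 * S2 * (r * L) = x ^ 2 * (6 / 5) * (5 / 6 * (S2 * r * L)) := by ring
          _ ≤ _ := mul_le_mul_of_nonneg_left s2 (by positivity)
      have a3 : V (pr z) ^ 2 * ((4 * x - 4 * x ^ 2) * th p N + x ^ 2 * th (p ^ 2) N) ≤ 5 / 4 := by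
        have b1 : (4 * x - 4 * x ^ 2) * th p N ≤ 1 := by
          calc (4 * x - 4 * x ^ 2) * th p N ≤ (4 * x - 4 * x ^ 2) * (p / 4) :=
                mul_le_mul_of_nonneg_left t1 hcoef
            _ = (1 - x) * (x * p) := by ring
            _ ≤ 1 := by rw [hxp]; linarith
        have b2 : x ^ 2 * th (p ^ 2) N ≤ 1 / 4 := by
          calc x ^ 2 * th (p ^ 2) N ≤ x ^ 2 * ((p : ℝ) ^ 2 / 4) :=
                mul_le_mul_of_nonneg_left t2 (sq_nonneg _)
            _ = (x * p) ^ 2 / 4 := by ring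
            _ = 1 / 4 := by rw [hxp]; norm_num
        have b3 : 0 ≤ (4 * x - 4 * x ^ 2) * th p N + x ^ 2 * th (p ^ 2) N := by positivity
        have b4 : V (pr z) ^ 2 ≤ 1 := pow_le_one₀ hV0 hV1
        calc V (pr z) ^ 2 * ((4 * x - 4 * x ^ 2) * th p N + x ^ 2 * th (p ^ 2) N) ≤
              1 * ((4 * x - 4 * x ^ 2) * th p N + x ^ 2 * th (p ^ 2) N) :=
              mul_le_mul_of_nonneg_right b4 b3
          _ ≤ 5 / 4 := by linarith
      have a4 : 5 / 4 * (r * L) ≤ x / 2 * B := by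
        have b1 : L ≤ 2 * √(N : ℝ) := by rw [hLdef]; exact log_le_sqrt (by linarith)
        have b2 : (p : ℝ) ^ 9 ≤ √(N : ℝ) := by
          apply Real.le_sqrt_of_sq_le
          calc ((p : ℝ) ^ 9) ^ 2 = (p : ℝ) ^ 18 := by ring
            _ ≤ (N : ℝ) := hNr.le
        have b3 : 5 * (p : ℝ) ≤ √(N : ℝ) := by
          refine le_trans ?_ b2
          calc 5 * (p : ℝ) ≤ (p : ℝ) ^ 8 * p := by
                apply mul_le_mul_of_nonneg_right _ hp0.le
                calc (5 : ℝ) ≤ 2 ^ 8 := by norm_num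
                  _ ≤ (p : ℝ) ^ 8 := pow_le_pow_left₀ (by norm_num) hp2' 8
            _ = (p : ℝ) ^ 9 := by ring
        have b4 : 5 * √(N : ℝ) ≤ x * N := by
          have h5 : √(N : ℝ) * √(N : ℝ) = N := Real.mul_self_sqrt (by linarith)
          calc 5 * √(N : ℝ) = x * (5 * p * √(N : ℝ)) := by
                calc 5 * √(N : ℝ) = (x * p) * (5 * √(N : ℝ)) := by rw [hxp, one_mul]
                  _ = _ := by ring
            _ ≤ x * (√(N : ℝ) * √(N : ℝ)) := by
                apply mul_le_mul_of_nonneg_left _ hx0.le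
                exact mul_le_mul_of_nonneg_right b3 (Real.sqrt_nonneg _)
            _ = x * N := by rw [h5]
        have b5 : r * L ≤ L := mul_le_of_le_one_left (by linarith) hR1
        have b6 : x * N ≤ x * B := mul_le_mul_of_nonneg_left hBN hx0.le
        linarith
      have a5 := num_ineq x hx0 hx1
      have hB0 : 0 ≤ B := by linarith
      have a6 := mul_le_mul_of_nonneg_right a5 hB0
      have a7 := mul_le_mul_of_nonneg_right a3 hrL
      have tot : ((1 - 4 * x + 2 * x ^ 2) * S0 + (4 * x - 4 * x ^ 2) * S1 + x ^ 2 * S2 +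
          V (pr z) ^ 2 * ((4 * x - 4 * x ^ 2) * th p N + x ^ 2 * th (p ^ 2) N)) * (r * L) ≤
          (1 + 3 * x ^ 2) * (1 + x) * B := by
        have b1 : (1 + 3 * x ^ 2) * (1 + x / 2) * B + x / 2 * B ≤ (1 + 3 * x ^ 2) * (1 + x) * B := by
          have : 0 ≤ (x / 2 * (3 * x ^ 2)) * B := by positivity
          nlinarith
        calc ((1 - 4 * x + 2 * x ^ 2) * S0 + (4 * x - 4 * x ^ 2) * S1 + x ^ 2 * S2 +
              V (pr z) ^ 2 * ((4 * x - 4 * x ^ 2) * th p N + x ^ 2 * th (p ^ 2) N)) * (r * L) =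
            (1 - 4 * x + 2 * x ^ 2) * S0 * (r * L) + (4 * x - 4 * x ^ 2) * S1 * (r * L) +
              x ^ 2 * S2 * (r * L) +
              V (pr z) ^ 2 * ((4 * x - 4 * x ^ 2) * th p N + x ^ 2 * th (p ^ 2) N) * (r * L) := by ring
          _ ≤ max (1 - 4 * x + 2 * x ^ 2) 0 * B + (4 * x - 4 * x ^ 2) * (9 / 8) * B +
              x ^ 2 * (6 / 5) * B + 5 / 4 * (r * L) := by linarith
          _ = (max (1 - 4 * x + 2 * x ^ 2) 0 + (4 * x - 4 * x ^ 2) * (9 / 8) + x ^ 2 * (6 / 5)) * B +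
              5 / 4 * (r * L) := by ring
          _ ≤ (1 + 3 * x ^ 2) * (1 + x / 2) * B + x / 2 * B := by linarith
          _ ≤ _ := b1
      have hfin := mul_le_mul_of_nonneg_right tot (show 0 ≤ 1 - x by linarith)
      have hlast : (1 + 3 * x ^ 2) * (1 + x) * B * (1 - x) ≤ (1 + 3 * x ^ 2) * B := by
        have : 0 ≤ x ^ 2 * ((1 + 3 * x ^ 2) * B) := by positivity
        nlinarith
      rw [hB] at hlast hfin
      refine le_trans (le_of_eq ?_) (hfin.trans (hlast.trans (le_of_eq ?_)))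
      · ring
      · ring

/-- **SMALL** -/
theorem t_SMALL (hR : S_REC) (hC : S_CNT) (hV : S_VAR) (hVV : S_VV) : S_SMALL := by
  obtain ⟨C₀, hC₀, hV⟩ := hV
  obtain ⟨c, C, hc, hCC, hVV⟩ := hVV
  have hbound : ∀ p : ℕ, p.Prime → C₀ * (R (pr p) * (1 + 18 * Real.log p)) ≤ C₀ * (19 * (1 + √C)) := by
    intro p hp
    apply mul_le_mul_of_nonneg_left _ (by linarith)
    have hR0 := R_pos _ (pr_prime p)
    have hR1 := R_le_one _ (pr_prime p)
    have hs : 0 ≤ √C := Real.sqrt_nonneg _
    rcases eq_or_lt_of_le hp.two_le with h | h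
    · subst h
      have hlog2 : Real.log 2 < 0.6931471808 := Real.log_two_lt_d9
      have hlog2' : 0.6931471803 < Real.log 2 := Real.log_two_gt_d9
      have h1 : R (pr 2) * (1 + 18 * Real.log ((2 : ℕ) : ℝ)) ≤ 1 * (1 + 18 * Real.log ((2 : ℕ) : ℝ)) := by
        apply mul_le_mul_of_nonneg_right hR1
        push_cast
        linarith
      refine h1.trans ?_
      push_cast
      linarith
    · have h3 : 3 ≤ p := h
      have hlog : 1 ≤ Real.log p := by
        rw [Real.le_log_iff_exp_le (by positivity)]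
        have : Real.exp 1 < 2.7182818286 := Real.exp_one_lt_d9
        have h3' : (3 : ℝ) ≤ p := by exact_mod_cast h3
        linarith
      have h4 := (hVV p h3).2
      rw [V_eq] at h4
      have h5 : R (pr p) * Real.log p ≤ √C := by
        apply Real.le_sqrt_of_sq_le
        rw [mul_pow]
        rwa [le_div_iff₀ (by positivity)] at h4
      calc R (pr p) * (1 + 18 * Real.log p) ≤ R (pr p) * (19 * Real.log p) :=
            mul_le_mul_of_nonneg_left (by linarith) hR0.le
        _ = 19 * (R (pr p) * Real.log p) := by ring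
        _ ≤ 19 * (1 + √C) := by linarith
  obtain ⟨K, hKdef⟩ : ∃ K : ℝ, K = C₀ * (19 * (1 + √C)) := ⟨_, rfl⟩
  have hs : 0 ≤ √C := Real.sqrt_nonneg _
  have hK1 : 1 ≤ K := by
    rw [hKdef]
    nlinarith
  have haux := aux hR hC C₀ hV K hK1 (fun p hp => by rw [hKdef]; exact hbound p hp) (by linarith)
  have hsc : 0 < √c := Real.sqrt_pos.2 hc
  have hinv : ∀ z : ℕ, 2 ≤ z → 1 ≤ (1 / √c + 3) * Real.log z * R (pr z) := by
    intro z hz
    have hR0 := R_pos _ (pr_prime z)
    have h0 : 0 < 1 / √c := by positivity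
    rcases eq_or_lt_of_le hz with h | h
    · subst h
      have h1 : R (pr 2) = 1 / 2 := by
        have : pr 2 = {2} := by
          unfold pr
          decide
        rw [this]
        unfold R
        norm_num
      rw [h1]
      have hlog2' : 0.6931471803 < Real.log 2 := Real.log_two_gt_d9
      push_cast
      nlinarith
    · have h3 : 3 ≤ z := h
      have hlog : 1 ≤ Real.log z := by
        rw [Real.le_log_iff_exp_le (by positivity)]
        have : Real.exp 1 < 2.7182818286 := Real.exp_one_lt_d9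
        have h3' : (3 : ℝ) ≤ z := by exact_mod_cast h3
        linarith
      have h4 := (hVV z h3).1
      rw [V_eq] at h4
      have h5 : √c ≤ R (pr z) * Real.log z := by
        apply Real.sqrt_le_iff.2
        constructor
        · positivity
        · rw [mul_pow]
          rwa [div_le_iff₀ (by positivity)] at h4
      calc (1 : ℝ) = 1 / √c * √c := by field_simp
        _ ≤ 1 / √c * (R (pr z) * Real.log z) := mul_le_mul_of_nonneg_left h5 h0.le
        _ ≤ (1 / √c + 3) * (R (pr z) * Real.log z) := by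
            apply mul_le_mul_of_nonneg_right (by linarith)
            positivity
        _ = _ := by ring
  obtain ⟨X, hX⟩ : ∃ X : ℝ, X = Real.exp (3 * (Real.pi ^ 2 / 6)) := ⟨_, rfl⟩
  have hX1 : 1 ≤ X := by rw [hX]; exact Real.one_le_exp (by positivity)
  refine ⟨K * X * (1 / √c + 3), ?_, ?_⟩
  · have h0 : 0 < 1 / √c := by positivity
    have h1 : 1 ≤ K * X := by nlinarith
    nlinarith
  · intro z N hz hN
    have hN' : (1 : ℝ) ≤ N := by exact_mod_cast hN
    have hL : 0 ≤ Real.log N := Real.log_nonneg hN'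
    have h1 := haux z N hN
    have h2 := prod_three_bound (pr z)
    rw [← hX] at h2
    have hR0 := R_pos _ (pr_prime z)
    have h3 := hinv z hz
    have hW := Wv_nonneg (pr z) N
    have hlogz : 0 ≤ Real.log z := Real.log_nonneg (by exact_mod_cast (by omega : 1 ≤ z))
    rw [le_div_iff₀ (by linarith)]
    calc Wv (pr z) N * (1 + Real.log N) ≤ Wv (pr z) N * (1 + Real.log N) *
          ((1 / √c + 3) * Real.log z * R (pr z)) :=
          le_mul_of_one_le_right (mul_nonneg hW (by linarith)) h3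
      _ = (Wv (pr z) N * R (pr z) * (1 + Real.log N)) * ((1 / √c + 3) * Real.log z) := by ring
      _ ≤ (K * (∏ p ∈ pr z, (1 + 3 / (p : ℝ) ^ 2)) * N) * ((1 / √c + 3) * Real.log z) := by
          apply mul_le_mul_of_nonneg_right h1
          positivity
      _ ≤ (K * X * N) * ((1 / √c + 3) * Real.log z) := by
          apply mul_le_mul_of_nonneg_right _ (by positivity)
          apply mul_le_mul_of_nonneg_right _ (by positivity)
          exact mul_le_mul_of_nonneg_left h2 (by linarith)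
      _ = _ := by ring

end Pool.Agent.H54.TM
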